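import Mathlib

set_option autoImplicit false

namespace Pool.Agent.Results.MP_157dc7_co.Counter

open Matrix

variable {n l n' l' : ℕ}

/-- The complement of the arrangement whose forms are the rows of `a`. -/
abbrev U (a : Matrix (Fin n) (Fin l) ℝ) : Type := {x : Fin l → ℝ // ∀ i, a i ⬝ᵥ x ≠ 0}

/-- The chambers: connected components of the complement. -/
def Ch (a : Matrix (Fin n) (Fin l) ℝ) : Type := ConnectedComponents (U a)

/-- The chamber containing a point. -/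
def ch {a : Matrix (Fin n) (Fin l) ℝ} (x : U a) : Ch a := ConnectedComponents.mk x

/-- Functions on the set of chambers. -/
abbrev VG (a : Matrix (Fin n) (Fin l) ℝ) (R : Type*) := Ch a → R

open Classical in
/-- The Heaviside function of the `i`-th form. -/
noncomputable def hv (a : Matrix (Fin n) (Fin l) ℝ) (R : Type*) [CommRing R] (i : Fin n) : VG a R :=
  fun c => if ∃ x : U a, ch x = c ∧ 0 < a i ⬝ᵥ x.1 then 1 else 0

/-- The degree filtration. -/
noncomputable def F (a : Matrix (Fin n) (Fin l) ℝ) (R : Type*) [CommRing R] (k : ℕ) :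
    Submodule R (VG a R) :=
  Submodule.span R {f | ∃ L : List (Fin n), L.length ≤ k ∧ f = (L.map (hv a R)).prod}

/-- An isomorphism of `R`-algebras, given with its underlying bijection. -/
def IsAlgIso {X Y : Type} {R : Type*} [CommRing R] (e : (X → R) ≃ (Y → R)) : Prop :=
  e 1 = 1 ∧ (∀ u v, e (u * v) = e u * e v) ∧ (∀ u v, e (u + v) = e u + e v) ∧
    ∀ (r : R) u, e (r • u) = r • e u

/-- The two algebras are isomorphic as filtered algebras. -/
def FilteredIso (a : Matrix (Fin n) (Fin l) ℝ) (b : Matrix (Fin n') (Fin l') ℝ) (R : Type*)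
    [CommRing R] : Prop :=
  ∃ e : VG a R ≃ VG b R, IsAlgIso e ∧ ∀ k u, u ∈ F a R k ↔ e u ∈ F b R k

/-- The covectors (sign vectors) of the arrangement. -/
def cov (a : Matrix (Fin n) (Fin l) ℝ) : Set (Fin n → SignType) :=
  {s | ∃ x, s = fun i => SignType.sign (a i ⬝ᵥ x)}

/-- Isomorphism of oriented matroids up to relabelling and reorientation. -/
def OMIso (a : Matrix (Fin n) (Fin l) ℝ) (b : Matrix (Fin n') (Fin l') ℝ) : Prop :=
  ∃ (σ : Fin n ≃ Fin n') (ε : Fin n → SignType), (∀ i, ε i ≠ 0) ∧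
    ∀ s, s ∈ cov b ↔ (fun i => ε i * s (σ i)) ∈ cov a

/-- No hyperplane contains the intersection of one or two others. -/
def Generic (a : Matrix (Fin n) (Fin l) ℝ) : Prop :=
  ∀ i j k, k ≠ i → k ≠ j → ∃ x, a i ⬝ᵥ x = 0 ∧ a j ⬝ᵥ x = 0 ∧ a k ⬝ᵥ x ≠ 0

lemma hv_mk (a : Matrix (Fin n) (Fin l) ℝ) (R : Type*) [CommRing R] (i : Fin n) (x : U a) :
    hv a R i (ch x) = if 0 < a i ⬝ᵥ x.1 then 1 else 0 := by
  have c : Continuous fun y : U a => a i ⬝ᵥ y.1 := by fun_prop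
  have : IsClopen {y : U a | 0 < a i ⬝ᵥ y.1} := by
    refine ⟨?_, isOpen_lt continuous_const c⟩
    convert isClosed_le (continuous_const (y := 0)) c using 1
    exact Set.ext fun y => (lt_iff_le_and_ne (a := (0 : ℝ))).trans (and_iff_left (y.2 i).symm)
  classical
  rw [hv]
  refine if_congr ⟨fun ⟨y, h1, h2⟩ => ?_, fun h => ⟨x, rfl, h⟩⟩ rfl rfl
  exact this.connectedComponent_subset h2 (ConnectedComponents.coe_eq_coe'.1 h1.symm)

lemma filt {a : Matrix (Fin n) (Fin l) ℝ} {b : Matrix (Fin n') (Fin l') ℝ} {R : Type*} [CommRing R]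
    (e : VG a R →ₐ[R] VG b R) (h : ∀ i, e (hv a R i) ∈ F b R 1) (k : ℕ) (f : VG a R)
    (hf : f ∈ F a R k) : e f ∈ F b R k := by
  have m : ∀ k, F b R 1 * F b R k ≤ F b R (k + 1) := fun k => by
    rw [F, F, Submodule.span_mul_span]
    refine Submodule.span_mono ?_
    rintro _ ⟨_, ⟨L, h1, rfl⟩, _, ⟨M, h2, rfl⟩, rfl⟩
    exact ⟨L ++ M, by simp; omega, by simp⟩
  have : ∀ (L : List (Fin n)) k, L.length ≤ k → e (L.map (hv a R)).prod ∈ F b R k := by
    intro L
    induction' L with i L ih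
    · exact fun k _ => Submodule.subset_span ⟨[], by simp, by simp⟩
    · rintro (_ | k) hk
      · simp at hk
      · rw [List.map_cons, List.prod_cons, map_mul]
        exact m k (Submodule.mul_mem_mul (h i) (ih k (by simpa using hk)))
  refine (Submodule.span_le (p := (F b R k).comap e.toLinearMap)).2 ?_ hf
  rintro _ ⟨L, h1, rfl⟩
  exact this L k h1

def A : Matrix (Fin 8) (Fin 6) ℤ :=
  !![1,0,0,0,0,0; 0,1,0,0,0,0; 0,0,1,0,0,0; 1,1,1,0,0,0;
     0,0,0,1,0,0; 0,0,0,0,1,0; 0,0,0,0,0,1; 0,0,0,1,1,1]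

def B : Matrix (Fin 8) (Fin 6) ℤ :=
  !![1,0,0,0,0,0; 0,1,0,0,0,0; 0,0,1,0,0,0; 1,1,1,0,0,0;
     0,0,0,1,0,0; 0,0,0,0,1,0; 0,0,0,0,0,1; 1,0,0,0,1,1]

def a : Matrix (Fin 8) (Fin 6) ℝ := A.map (↑)

def b : Matrix (Fin 8) (Fin 6) ℝ := B.map (↑)

def V : List (Fin 6 → ℤ) :=
  [![0,-1,-1,0,0,0], ![0,0,0,-1,-1,0], ![-1,0,0,0,0,1], ![-1,0,1,0,0,0], ![0,0,0,0,-1,1], ![-1,1,0,-1,0,1], ![0,0,-1,-1,0,0], ![-1,1,0,0,1,0], ![0,-1,0,0,0,-1], ![-1,0,0,-1,1,0], ![0,-1,1,-1,0,0], ![0,-1,-1,-1,0,1]]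

lemma gen (M : Matrix (Fin 8) (Fin 6) ℤ) (h : ∀ i j k, k ≠ i → k ≠ j → ∃ v ∈ V,
    M i ⬝ᵥ v = 0 ∧ M j ⬝ᵥ v = 0 ∧ M k ⬝ᵥ v ≠ 0) : Generic (M.map (↑)) := by
  intro i j k h1 h2
  obtain ⟨v, -, h⟩ := h i j k h1 h2
  refine ⟨fun t => v t, ?_⟩
  simp only [dotProduct, map_apply] at h ⊢
  exact ⟨by exact_mod_cast h.1, by exact_mod_cast h.2.1, by exact_mod_cast h.2.2⟩

lemma ea (x : Fin 6 → ℝ) (i : Fin 8) : a i ⬝ᵥ x =
    ![x 0, x 1, x 2, x 0 + x 1 + x 2, x 3, x 4, x 5, x 3 + x 4 + x 5] i := by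
  fin_cases i <;> simp [a, A, dotProduct, Fin.sum_univ_succ, add_assoc]

lemma eb (x : Fin 6 → ℝ) (i : Fin 8) : b i ⬝ᵥ x =
    ![x 0, x 1, x 2, x 0 + x 1 + x 2, x 3, x 4, x 5, x 0 + x 4 + x 5] i := by
  fin_cases i <;> simp [b, B, dotProduct, Fin.sum_univ_succ, add_assoc]

def g (y : Fin 6 → ℝ) : Fin 6 → ℝ := ![y 0, y 1, y 2, y 3 * y 0, y 4 * y 3, y 5 * y 3]

noncomputable def f (x : Fin 6 → ℝ) : Fin 6 → ℝ :=
  ![x 0, x 1, x 2, x 3 / x 0, x 4 / (x 3 / x 0), x 5 / (x 3 / x 0)]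

lemma eg (y : Fin 6 → ℝ) (i : Fin 8) : a i ⬝ᵥ g y =
    b i ⬝ᵥ y * if i.1 < 4 then 1 else if i = 4 then b 0 ⬝ᵥ y else b 4 ⬝ᵥ y := by
  rw [ea]
  fin_cases i <;> simp [eb, g]
  ring

lemma gf (x : U a) : g (f x.1) = x.1 := by
  have h0 : x.1 0 ≠ 0 := by simpa [ea] using x.2 0
  have h3 : x.1 3 ≠ 0 := by simpa [ea] using x.2 4
  ext i
  fin_cases i <;> simp [f, g] <;> field_simp

lemma fg (y : U b) : f (g y.1) = y.1 := by
  have h0 : y.1 0 ≠ 0 := by simpa [eb] using y.2 0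
  have h3 : y.1 3 ≠ 0 := by simpa [eb] using y.2 4
  ext i
  fin_cases i <;> simp [f, g, h0, h3]

def g' (y : U b) : U a := ⟨g y.1, fun i => by
  rw [eg]
  refine mul_ne_zero (y.2 i) ?_
  split_ifs
  exacts [one_ne_zero, y.2 0, y.2 4]⟩

noncomputable def f' (x : U a) : U b :=
  ⟨f x.1, fun i h => x.2 i (by rw [← gf x, eg, h, zero_mul])⟩

lemma cc (c : Matrix (Fin 8) (Fin 6) ℝ) (j : Fin 6) : Continuous fun x : U c => x.1 j :=
  (continuous_apply j).comp continuous_subtype_val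

lemma cg : Continuous g' := by
  refine Continuous.subtype_mk (continuous_pi fun i => ?_) _
  fin_cases i <;> first | exact cc _ _ | exact (cc _ _).mul (cc _ _)

lemma cf : Continuous f' := by
  have h0 : ∀ x : U a, x.1 0 ≠ 0 := fun x => by simpa [ea] using x.2 0
  have h3 : ∀ x : U a, x.1 3 / x.1 0 ≠ 0 := fun x => div_ne_zero (by simpa [ea] using x.2 4) (h0 x)
  have c : Continuous fun x : U a => x.1 3 / x.1 0 := (cc _ _).div (cc _ _) h0
  refine Continuous.subtype_mk (continuous_pi fun i => ?_) _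
  fin_cases i <;> first | exact cc _ _ | exact c | exact (cc _ _).div c h3

noncomputable def E (R : Type*) [CommRing R] : VG a R ≃ₐ[R] VG b R where
  toFun u := u ∘ cg.connectedComponentsMap
  invFun v := v ∘ cf.connectedComponentsMap
  left_inv u := funext fun c => by
    obtain ⟨x, rfl⟩ := ConnectedComponents.surjective_coe c
    exact congrArg (fun z => u (ch z)) (Subtype.ext (gf x))
  right_inv v := funext fun c => by
    obtain ⟨y, rfl⟩ := ConnectedComponents.surjective_coe c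
    exact congrArg (fun z => v (ch z)) (Subtype.ext (fg y))
  map_mul' _ _ := rfl
  map_add' _ _ := rfl
  commutes' _ := rfl

lemma key (R : Type*) [CommRing R] [CharP R 2] (i : Fin 8) : E R (hv a R i) =
    hv b R i + if i.1 < 4 then 0 else if i = 4 then hv b R 0 + 1 else hv b R 4 + 1 := by
  ext c
  obtain ⟨y, rfl⟩ := ConnectedComponents.surjective_coe c
  have H : ∀ s t : ℝ, s ≠ 0 → t ≠ 0 → (if 0 < s * t then (1 : R) else 0) =
      (if 0 < s then 1 else 0) + ((if 0 < t then 1 else 0) + 1) := fun s t hs ht => by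
    rcases hs.lt_or_gt with h | h <;> rcases ht.lt_or_gt with k | k <;>
      simp [mul_pos_iff, h, k, h.not_gt, k.not_gt, CharTwo.add_self_eq_zero]
  change hv a R i (ch (g' y)) = (_ : VG b R) (ch y)
  rw [hv_mk]
  change (if 0 < a i ⬝ᵥ g y.1 then (1 : R) else 0) = _
  rw [eg]
  by_cases h1 : i.1 < 4
  · simp [h1, hv_mk]
  by_cases h2 : i = 4
  · simp only [h1, if_pos h2, if_false, Pi.add_apply, hv_mk, Pi.one_apply, H _ _ (y.2 i) (y.2 0)]
  · simp only [h1, if_neg h2, if_false, Pi.add_apply, hv_mk, Pi.one_apply, H _ _ (y.2 i) (y.2 4)]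

theorem result : ∃ a b : Matrix (Fin 8) (Fin 6) ℝ, Generic a ∧ Generic b ∧ ¬ OMIso a b ∧
    ∀ (R : Type*) [CommRing R] [CharP R 2], FilteredIso a b R := by
  refine ⟨a, b, gen A (by decide +kernel), gen B (by decide +kernel), ?_, fun R _ _ => ?_⟩
  · rintro ⟨σ, ε, h1, h2⟩
    obtain ⟨x, hx⟩ := (h2 _).1 ⟨Pi.single 3 1, rfl⟩
    have h3 : ∀ i, a i ⬝ᵥ x = 0 ↔ i ≠ σ.symm 4 := fun i => by
      rw [← sign_eq_zero_iff, ← congrFun hx i, Ne, Equiv.eq_symm_apply, mul_eq_zero, or_iff_right (h1 i)]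
      generalize σ i = j
      rw [eb]
      fin_cases j <;> simp
    generalize σ.symm 4 = j at h3
    simp only [Fin.forall_fin_succ, ea] at h3
    fin_cases j <;> simp at h3 <;> grind
  · have o : ∀ (c : Matrix (Fin 8) (Fin 6) ℝ), (1 : VG c R) ∈ F c R 1 ∧ ∀ i, hv c R i ∈ F c R 1 :=
      fun c => ⟨Submodule.subset_span ⟨[], by simp⟩, fun i => Submodule.subset_span ⟨[i], by simp⟩⟩
    have t : ∀ v : VG b R, v + v = 0 := fun v => funext fun c => CharTwo.add_self_eq_zero _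
    refine ⟨(E R).toEquiv, ⟨map_one (E R), map_mul (E R), map_add (E R), map_smul (E R)⟩,
      fun k u => ⟨filt (E R).toAlgHom (fun i => ?_) k u, fun h => ?_⟩⟩
    · change E R _ ∈ _
      rw [key]
      split_ifs <;> simp [add_mem, o]
    · have := filt (E R).symm.toAlgHom (fun i => ?_) k _ h
      · simpa using this
      · change (E R).symm _ ∈ _
        have : hv b R i = E R (hv a R i + if i.1 < 4 then 0 else if i = 4 then hv a R 0 + 1
            else hv a R 4 + hv a R 0) := by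
          split_ifs with h1 h2
          · simp [key, h1]
          · simp [key, h2, add_assoc, t]
          · simp only [map_add, key, h1, h2, if_false]
            simp
            linear_combination (-1 : VG b R) * (t (hv b R 4) + t (hv b R 0) + t 1)
        rw [this, AlgEquiv.symm_apply_apply]
        split_ifs <;> simp [add_mem, o]

end Pool.Agent.Results.MP_157dc7_co.Counter
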